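import Mathlib

/-!
# Irreducibility of `F (c X ^ q)`
-/

set_option autoImplicit false
set_option maxHeartbeats 1000000

namespace Pool.Agent.N449.SK

open Polynomial

theorem arith (A y : ℚ) (hA : 0 < A) (hy : 0 ≤ y) (h q : ℕ) (h0 : 0 < h) (hhq : h < q)
    (heq : y ^ q = A ^ h) : ∃ (r : ℕ) (z : ℚ), r.Prime ∧ r ≤ q ∧ z ^ r = A := by
  have hg : 0 < Nat.gcd h q := Nat.gcd_pos_of_pos_left _ h0
  obtain ⟨h', q', hcop, hh', hq'⟩ : ∃ h' q' : ℕ, Nat.Coprime h' q' ∧ h = h' * Nat.gcd h q ∧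
      q = q' * Nat.gcd h q := by
    obtain ⟨g, h', q', hg0, hc, e1, e2⟩ := Nat.exists_coprime' hg
    have : Nat.gcd h q = g := by
      rw [e1, e2, Nat.gcd_mul_right, hc.gcd_eq_one, one_mul]
    exact ⟨h', q', hc, by rw [this]; exact e1, by rw [this]; exact e2⟩
  set g := Nat.gcd h q with hgdef
  have hAh : 0 ≤ A ^ h' := by positivity
  have h1 : y ^ q' = A ^ h' := by
    have : (y ^ q') ^ g = (A ^ h') ^ g := by rw [← pow_mul, ← pow_mul, ← hq', ← hh', heq]
    exact (pow_left_inj₀ (by positivity) hAh hg.ne').1 this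
  have hy0 : y ≠ 0 := by
    rintro rfl
    rw [zero_pow (by omega)] at heq
    have : 0 < A ^ h := by positivity
    linarith
  have hq1 : q' ≠ 1 := by
    rintro rfl
    rw [one_mul] at hq'
    have : h' ≠ 0 := by
      rintro rfl
      omega
    have : g ≤ h' * g := Nat.le_mul_of_pos_left _ (by omega)
    omega
  have hq0 : q' ≠ 0 := by
    rintro rfl
    omega
  -- Bezout
  have hb := Nat.gcd_eq_gcd_ab h' q'
  rw [hcop.gcd_eq_one] at hb
  set a := Nat.gcdA h' q'
  set b := Nat.gcdB h' q'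
  obtain ⟨z, hz⟩ : ∃ z : ℚ, z ^ q' = A := by
    refine ⟨y ^ a * A ^ b, ?_⟩
    have e1 : (y ^ a) ^ q' = (A ^ (h' : ℤ)) ^ a := by
      rw [← zpow_natCast, ← zpow_mul, mul_comm, zpow_mul, zpow_natCast, h1, zpow_natCast]
    rw [mul_pow, e1, ← zpow_mul, ← zpow_natCast, ← zpow_mul, ← zpow_add₀ hA.ne']
    have : (h' : ℤ) * a + b * (q' : ℤ) = 1 := by push_cast at hb; linarith
    rw [this, zpow_one]
  refine ⟨q'.minFac, z ^ (q' / q'.minFac), Nat.minFac_prime hq1, ?_, ?_⟩
  · have e1 : q'.minFac ≤ q' := Nat.minFac_le (Nat.pos_of_ne_zero hq0)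
    have e2 : q' ≤ q' * g := Nat.le_mul_of_pos_right _ hg
    omega
  · rw [← pow_mul, Nat.div_mul_cancel (Nat.minFac_dvd _), hz]

theorem irr_comp (F : ℚ[X]) (hF : Irreducible F) (c : ℚ) (hc : c ≠ 0) (hF0 : F.coeff 0 ≠ 0)
    (q : ℕ) (hq : 0 < q)
    (hpow : ∀ (r : ℕ) (z : ℚ), r.Prime → r ≤ q →
      z ^ r ≠ |F.coeff 0 / (F.leadingCoeff * c ^ F.natDegree)|) :
    Irreducible (F.comp (C c * X ^ q)) := by
  have hFd : 0 < F.natDegree := hF.natDegree_pos
  have hl : F.leadingCoeff ≠ 0 := leadingCoeff_ne_zero.2 hF.ne_zero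
  set P := F.comp (C c * X ^ q) with hP
  have hPd : P.natDegree = F.natDegree * q := by
    rw [hP, natDegree_comp, natDegree_C_mul_X_pow _ _ hc]
  have hPd0 : 0 < P.natDegree := by rw [hPd]; positivity
  have hP0 : P ≠ 0 := by
    rintro h
    rw [h, natDegree_zero] at hPd0
    exact lt_irrefl _ hPd0
  obtain ⟨G, hG, hGP⟩ := exists_irreducible_of_natDegree_pos hPd0
  have : Fact (Irreducible G) := ⟨hG⟩
  let L := AdjoinRoot G
  have hfin : FiniteDimensional ℚ L := (AdjoinRoot.powerBasis hG.ne_zero).finite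
  have hfr : Module.finrank ℚ L = G.natDegree := by
    rw [(AdjoinRoot.powerBasis hG.ne_zero).finrank, AdjoinRoot.powerBasis_dim]
  set ρ : L := AdjoinRoot.root G with hρ
  set θ : L := algebraMap ℚ L c * ρ ^ q with hθ
  have hG0 : aeval ρ G = 0 := by
    rw [aeval_def, Subsingleton.elim (algebraMap ℚ L) (AdjoinRoot.of G)]
    exact AdjoinRoot.eval₂_root G
  have hθF : aeval θ F = 0 := by
    have h1 : aeval ρ P = 0 := by
      obtain ⟨H, hH⟩ := hGP
      rw [hH, map_mul, hG0, zero_mul]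
    rw [hP, aeval_comp] at h1
    rw [← h1]
    congr 1
    simp [hθ]
  have hmin := minpoly.eq_of_irreducible hF hθF
  have hmd : (minpoly ℚ θ).natDegree = F.natDegree := by
    rw [← hmin, natDegree_mul_C (inv_ne_zero hl)]
  have hint : IsIntegral ℚ θ := Algebra.IsIntegral.isIntegral θ
  have hKd : Module.finrank ℚ (IntermediateField.adjoin ℚ {θ}) = F.natDegree := by
    rw [IntermediateField.adjoin.finrank hint, hmd]
  set h := Module.finrank (IntermediateField.adjoin ℚ {θ}) L with hh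
  have htower : F.natDegree * h = G.natDegree := by
    rw [← hKd, hh, Module.finrank_mul_finrank, hfr]
  have hGle : G.natDegree ≤ F.natDegree * q := by
    rw [← hPd]; exact natDegree_le_of_dvd hGP hP0
  have hhq : h ≤ q := by
    rw [← htower] at hGle
    exact Nat.le_of_mul_le_mul_left hGle hFd
  have hh0 : 0 < h := Module.finrank_pos
  -- norms
  have hN : Algebra.norm ℚ θ = ((-1) ^ F.natDegree * (F.coeff 0 / F.leadingCoeff)) ^ h := by
    rw [Algebra.norm_eq_norm_adjoin ℚ θ]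
    congr 1
    have h2 := Algebra.PowerBasis.norm_gen_eq_coeff_zero_minpoly
      (IntermediateField.adjoin.powerBasis hint)
    rw [IntermediateField.adjoin.powerBasis_gen, IntermediateField.adjoin.powerBasis_dim,
      IntermediateField.minpoly_gen, hmd] at h2
    rw [h2, ← hmin, coeff_mul_C, div_eq_mul_inv]
  have hN2 : Algebra.norm ℚ θ = c ^ G.natDegree * (Algebra.norm ℚ ρ) ^ q := by
    rw [hθ, map_mul, map_pow, Algebra.norm_algebraMap, hfr]
  by_cases hcase : h = q
  · -- `G` has full degree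
    obtain ⟨H, hH⟩ := hGP
    have hH0 : H ≠ 0 := by
      rintro rfl
      rw [mul_zero] at hH
      exact hP0 hH
    have h1 := congrArg natDegree hH
    rw [natDegree_mul hG.ne_zero hH0, hPd, ← htower, hcase] at h1
    have h2 : H.natDegree = 0 := by omega
    have h3 : IsUnit H := by
      rw [eq_C_of_natDegree_eq_zero h2, isUnit_C, isUnit_iff_ne_zero]
      intro h0
      rw [eq_C_of_natDegree_eq_zero h2, h0, C_0] at hH0
      exact hH0 rfl
    rw [hH]
    exact (irreducible_mul_isUnit h3).2 hG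
  · exfalso
    have hlt : h < q := lt_of_le_of_ne hhq hcase
    have hA : 0 < |F.coeff 0 / (F.leadingCoeff * c ^ F.natDegree)| :=
      abs_pos.2 (div_ne_zero hF0 (mul_ne_zero hl (pow_ne_zero _ hc)))
    obtain ⟨r, z, hr, hrq, hz⟩ := arith _ |Algebra.norm ℚ ρ| hA (abs_nonneg _) h q hh0 hlt (by
      rw [hN2] at hN
      have h1 := congrArg abs hN
      rw [abs_mul, abs_pow, abs_pow, abs_pow, abs_mul, abs_pow, abs_neg, abs_one, one_pow, one_mul,
        ← htower] at h1
      rw [abs_div, abs_mul, abs_pow]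
      rw [abs_div] at h1
      have hc' : |c| ≠ 0 := abs_ne_zero.2 hc
      have hl' : |F.leadingCoeff| ≠ 0 := abs_ne_zero.2 hl
      rw [div_pow, mul_pow, ← pow_mul, eq_div_iff (by positivity)]
      rw [div_pow, eq_div_iff (by positivity)] at h1
      linear_combination h1)
    exact hpow r z hr hrq hz

end Pool.Agent.N449.SK
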